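import Pool.Agent.Helper11_PGL.StmtK

/-!
# DOM: tensor products of domains over an algebraically closed field are domains
-/

open scoped TensorProduct

universe u v w

namespace PGL.H48

/-- Nullstellensatz: a nonzero element of a finitely generated domain over an algebraically closed
field is not killed by some point. -/
theorem exists_point (k : Type*) {C : Type*} [Field k] [IsAlgClosed k] [CommRing C] [IsDomain C]
    [Algebra k C] [Algebra.FiniteType k C] (c : C) (hc : c ≠ 0) : ∃ φ : C →ₐ[k] k, φ c ≠ 0 := by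
  classical
  have : IsJacobsonRing C := isJacobsonRing_of_finiteType (A := k)
  have hJ : (⊥ : Ideal C).jacobson = ⊥ :=
    (inferInstance : IsJacobsonRing C).out (Ideal.IsPrime.isRadical (Ideal.isPrime_bot))
  obtain ⟨m, hm, hcm⟩ : ∃ m : Ideal C, m.IsMaximal ∧ c ∉ m := by
    by_contra hcon
    push Not at hcon
    apply hc
    have : c ∈ (⊥ : Ideal C).jacobson := by
      rw [Ideal.jacobson, Ideal.mem_sInf]
      intro J hJ
      exact hcon J hJ.2
    rw [hJ] at this
    simpa using this
  let := Ideal.Quotient.field m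
  have : Module.Finite k (C ⧸ m) := finite_of_finite_type_of_isJacobsonRing k (C ⧸ m)
  have hbij : Function.Bijective (algebraMap k (C ⧸ m)) :=
    IsAlgClosed.algebraMap_bijective_of_isIntegral
  let e : k ≃ₐ[k] (C ⧸ m) := AlgEquiv.ofBijective (Algebra.ofId k (C ⧸ m)) hbij
  refine ⟨(e.symm : (C ⧸ m) →ₐ[k] k).comp (Ideal.Quotient.mkₐ k m), ?_⟩
  intro h
  apply hcm
  have h1 : e.symm (Ideal.Quotient.mk m c) = 0 := h
  rw [map_eq_zero_iff _ e.symm.injective] at h1
  exact Ideal.Quotient.eq_zero_iff_mem.1 h1

/-- DOM -/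
theorem dom : DomStmt.{u, v, w} := by
  intro k A B _ _ _ _ _ _ _ _
  classical
  have : Nontrivial (A ⊗[k] B) :=
    Algebra.TensorProduct.nontrivial_of_algebraMap_injective_of_isDomain k A B
      (algebraMap k A).injective (algebraMap k B).injective
  suffices hz : NoZeroDivisors (A ⊗[k] B) from NoZeroDivisors.to_isDomain _
  refine ⟨?_⟩
  intro x y hxy
  by_contra hcon
  push Not at hcon
  obtain ⟨hx, hy⟩ := hcon
  let b := Module.Basis.ofVectorSpace k B
  let bA := Algebra.TensorProduct.basis A b
  obtain ⟨i, hi⟩ : ∃ i, bA.repr x i ≠ 0 := by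
    by_contra hcon
    push Not at hcon
    apply hx
    apply bA.repr.injective
    ext i
    simpa using hcon i
  obtain ⟨j, hj⟩ : ∃ j, bA.repr y j ≠ 0 := by
    by_contra hcon
    push Not at hcon
    apply hy
    apply bA.repr.injective
    ext i
    simpa using hcon i
  -- the finitely generated subalgebra which contains the coefficients
  let S : Set A := Set.range (fun i : (bA.repr x).support => bA.repr x i) ∪
    Set.range (fun i : (bA.repr y).support => bA.repr y i)
  have hSf : S.Finite := (Set.finite_range _).union (Set.finite_range _)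
  let C : Subalgebra k A := Algebra.adjoin k S
  have : Algebra.FiniteType k C :=
    (Subalgebra.fg_iff_finiteType C).1 ⟨hSf.toFinset, by simp [C]⟩
  have hxC : ∀ i, bA.repr x i ∈ C := by
    intro i
    by_cases h : bA.repr x i = 0
    · rw [h]; exact C.zero_mem
    · exact Algebra.subset_adjoin (Or.inl ⟨⟨i, by simpa using h⟩, rfl⟩)
  have hyC : ∀ i, bA.repr y i ∈ C := by
    intro i
    by_cases h : bA.repr y i = 0
    · rw [h]; exact C.zero_mem
    · exact Algebra.subset_adjoin (Or.inr ⟨⟨i, by simpa using h⟩, rfl⟩)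
  obtain ⟨φ, hφ⟩ := exists_point k (C := C) (⟨bA.repr x i, hxC i⟩ * ⟨bA.repr y j, hyC j⟩)
    (mul_ne_zero (fun h => hi (congrArg Subtype.val h)) (fun h => hj (congrArg Subtype.val h)))
  rw [map_mul] at hφ
  have hφx := left_ne_zero_of_mul hφ
  have hφy := right_ne_zero_of_mul hφ
  -- the lifts
  let lift : (∀ z : A ⊗[k] B, (∀ i, bA.repr z i ∈ C) → C ⊗[k] B) := fun z hz =>
    ∑ i ∈ (bA.repr z).support, (⟨bA.repr z i, hz i⟩ : C) ⊗ₜ[k] b i
  let inc : C ⊗[k] B →ₐ[k] A ⊗[k] B := Algebra.TensorProduct.map C.val (AlgHom.id k B)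
  have hinc : Function.Injective inc := by
    have h := Module.Flat.rTensor_preserves_injective_linearMap (M := B) C.val.toLinearMap
      Subtype.val_injective
    exact h
  have hlift : ∀ (z : A ⊗[k] B) (hz : ∀ i, bA.repr z i ∈ C), inc (lift z hz) = z := by
    intro z hz
    conv_rhs => rw [← bA.linearCombination_repr z]
    rw [Finsupp.linearCombination_apply, Finsupp.sum]
    simp only [lift, map_sum]
    refine Finset.sum_congr rfl fun i _ => ?_
    simp only [inc, Algebra.TensorProduct.map_tmul, AlgHom.id_apply, Subalgebra.coe_val]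
    rw [Algebra.TensorProduct.basis_repr_symm_apply']
  let ev : C ⊗[k] B →ₐ[k] B := Algebra.TensorProduct.lift ((Algebra.ofId k B).comp φ)
    (AlgHom.id k B) (fun _ _ => Commute.all _ _)
  have hev : ∀ (z : A ⊗[k] B) (hz : ∀ i, bA.repr z i ∈ C) (i₀), φ ⟨bA.repr z i₀, hz i₀⟩ ≠ 0 →
      ev (lift z hz) ≠ 0 := by
    intro z hz i₀ h0 h
    apply h0
    have h1 : ev (lift z hz) =
        ∑ i ∈ (bA.repr z).support, φ ⟨bA.repr z i, hz i⟩ • b i := by
      simp only [lift, map_sum]
      refine Finset.sum_congr rfl fun i _ => ?_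
      simp [ev, Algebra.ofId_apply, Algebra.smul_def]
    rw [h1] at h
    have h2 := linearIndependent_iff'.1 b.linearIndependent _ _ h
    by_cases hmem : i₀ ∈ (bA.repr z).support
    · exact h2 i₀ hmem
    · have : (⟨bA.repr z i₀, hz i₀⟩ : C) = 0 := by
        apply Subtype.ext
        simpa using hmem
      rw [this, map_zero]
  have hprod : lift x hxC * lift y hyC = 0 := by
    apply hinc
    rw [map_mul, hlift, hlift, hxy, map_zero]
  have := congrArg ev hprod
  rw [map_mul, map_zero] at this
  rcases mul_eq_zero.1 this with h | h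
  · exact hev x hxC i hφx h
  · exact hev y hyC j hφy h

end PGL.H48
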