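import Pool.Agent.Helper11_PGL.StmtK
import Pool.Agent.Helper1_PGH.Riemann

/-!
# RIEM: equality in Riemann's inequality for large divisors
-/

open PGH

universe u

namespace PGL.H48

variable {k R : Type*} [Field k] [Field R] [Algebra k R] [IsAlgClosed k] [CharZero k] [FF k R]

open Classical in
theorem Lm_finite (m : Multiset (Place k R)) : FiniteDimensional k (Lm m) := LD_finite m

open Classical in
/-- adding a divisor of degree `c` raises the dimension by at most `c` -/
theorem finrank_add_le (m m' : Multiset (Place k R)) :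
    Module.finrank k (Lm (m + m')) ≤ Module.finrank k (Lm m) + Multiset.card m' := by
  have := Lm_finite (m + m')
  have := Lm_finite m
  obtain ⟨W', -, h2, h3⟩ := finrank_codim_multiset
    (fun P => (((m + m').count P : ℕ) : ℤ)) m' (Lm (m + m')) le_rfl
  have h4 : W' ≤ Lm m := by
    refine h2.trans (LD_mono fun P => ?_)
    rw [Multiset.count_add]
    push_cast
    omega
  have h5 := Submodule.finrank_mono h4
  omega

open Classical in
/-- Riemann's inequality, in the form needed -/
theorem exists_bound : ∃ G : ℕ, ∀ m : Multiset (Place k R),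
    Multiset.card m ≤ Module.finrank k (Lm m) + G := by
  obtain ⟨x, hx⟩ := FF.exists_transcendental (L := k) (E := R)
  obtain ⟨n₀, hn₀⟩ := exists_pole_space hx
  have hhpos : 0 < ht k x := ht_pos hx
  refine ⟨ht k x * n₀, fun m => ?_⟩
  obtain ⟨W, hWfin, hW, hWr⟩ := hn₀ (Multiset.card m)
  obtain ⟨W', hW'W, hW', hW'r⟩ := finrank_codim_multiset _ m W hW
  have hpos : 0 < Module.finrank k W' := by
    have : Multiset.card m + 1 ≤ ht k x * (Multiset.card m + 1) := Nat.le_mul_of_pos_left _ hhpos
    omega
  have : FiniteDimensional k W' := Submodule.finiteDimensional_of_le hW'W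
  obtain ⟨⟨f, hfW⟩, hf0⟩ := (Module.finrank_pos_iff_exists_ne_zero (R := k) (M := W')).1 hpos
  have hf : f ≠ 0 := fun h => hf0 (Subtype.ext h)
  have hford : ∀ P : Place k R,
      -(((Multiset.card m + n₀ : ℕ) : ℤ) * max 0 (- P.ord x) - m.count P) ≤ P.ord f :=
    fun P => (P.ge_iff hf).1 (hW' hfW P)
  obtain ⟨a, ha⟩ := (finite_support (L := k) f).exists_finset
  obtain ⟨a', ha'⟩ := (finite_support (L := k) x).exists_finset
  obtain ⟨e, he, hecard⟩ := exists_multiset
    (fun P => P.ord f + ((Multiset.card m + n₀ : ℕ) : ℤ) * max 0 (- P.ord x)) (a ∪ a')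
    (fun P => by
      have h1 := hford P
      have h2 : (0 : ℤ) ≤ m.count P := Int.natCast_nonneg _
      linarith)
    (fun P hP => by
      simp only [Finset.mem_union, not_or] at hP
      have h1 : P.ord f = 0 := by
        by_contra h0; exact hP.1 ((ha P).2 h0)
      have h2 : P.ord x = 0 := by
        by_contra h0; exact hP.2 ((ha' P).2 h0)
      rw [h1, h2]; simp)
  have hsumf : ∑ P ∈ a ∪ a', P.ord f = 0 := by
    apply sum_ord_eq_zero
    intro P hP
    simp only [Finset.mem_union, not_or] at hP
    by_contra h0; exact hP.1 ((ha P).2 h0)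
  have hsumx : ∑ P ∈ a ∪ a', max 0 (- P.ord x) = ht k x := by
    apply sum_poles_eq
    intro P hP
    simp only [Finset.mem_union, not_or] at hP
    by_contra h0; exact hP.2 ((ha' P).2 h0)
  have hcard : Multiset.card e = (Multiset.card m + n₀) * ht k x := by
    have : (Multiset.card e : ℤ) = ((Multiset.card m + n₀ : ℕ) : ℤ) * ht k x := by
      rw [hecard, Finset.sum_add_distrib, ← Finset.mul_sum, hsumf, hsumx, zero_add]
    exact_mod_cast this
  -- `e` dominates `m`
  have hme : m ≤ e := by
    rw [Multiset.le_iff_count]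
    intro P
    have h1 := hford P
    have h2 := he P
    have h3 : ((m.count P : ℕ) : ℤ) ≤ ((e.count P : ℕ) : ℤ) := by rw [h2]; linarith
    exact_mod_cast h3
  obtain ⟨m', rfl⟩ := Multiset.le_iff_exists_add.1 hme
  have hfe := Lm_finite (m + m')
  -- the dimension of `L(e)`
  have hdim : Module.finrank k W ≤ Module.finrank k (Lm (m + m')) := by
    let φ : W →ₗ[k] Lm (m + m') :=
      { toFun := fun y => ⟨(y : R) * f⁻¹, by
          intro P
          have h1 : P.Ge (-(((Multiset.card m + n₀ : ℕ) : ℤ) * max 0 (- P.ord x))) (y : R) :=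
            hW y.2 P
          have h2 : P.Ge (-(P.ord f)) f⁻¹ := by
            rw [P.ge_iff (inv_ne_zero hf), P.ord_inv]
          refine h1.mul' h2 ?_
          have h3 := he P
          change -(((m + m').count P : ℕ) : ℤ) ≤ _
          rw [h3]
          linarith⟩
        map_add' := by
          intro y z
          apply Subtype.ext
          change ((y + z : W) : R) * f⁻¹ = (y : R) * f⁻¹ + (z : R) * f⁻¹
          rw [Submodule.coe_add, add_mul]
        map_smul' := by
          intro c y
          apply Subtype.ext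
          change ((c • y : W) : R) * f⁻¹ = c • ((y : R) * f⁻¹)
          rw [Submodule.coe_smul, smul_mul_assoc] }
    apply LinearMap.finrank_le_finrank_of_injective (f := φ)
    intro y z hyz
    have h1 : (y : R) * f⁻¹ = (z : R) * f⁻¹ := congrArg Subtype.val hyz
    exact Subtype.ext (mul_right_cancel₀ (inv_ne_zero hf) h1)
  have h6 := finrank_add_le m m'
  rw [Multiset.card_add] at hcard
  have h7 : (Multiset.card m + n₀) * ht k x =
      ht k x * (Multiset.card m + 1) + ht k x * n₀ - ht k x := by
    have : (Multiset.card m + n₀) * ht k x + ht k x =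
      ht k x * (Multiset.card m + 1) + ht k x * n₀ := by ring
    omega
  omega

open Classical in
/-- RIEM -/
theorem riem : RiemStmt.{u} := by
  intro k R _ _ _ _ _ _
  obtain ⟨G, hG⟩ := exists_bound (k := k) (R := R)
  let S : Set ℤ := Set.range fun m : Multiset (Place k R) =>
    (Multiset.card m : ℤ) - Module.finrank k (Lm m)
  have hne : S.Nonempty := ⟨_, 0, rfl⟩
  obtain ⟨g, ⟨m₀, hm₀⟩, hg⟩ : ∃ g ∈ S, ∀ z ∈ S, z ≤ g := by
    obtain ⟨g, h1, h2⟩ := Int.exists_greatest_of_bdd (P := fun z => z ∈ S) ⟨(G : ℤ), by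
      rintro z ⟨m, rfl⟩
      have := hG m
      change (Multiset.card m : ℤ) - Module.finrank k (Lm m) ≤ G
      omega⟩ hne
    exact ⟨g, h1, h2⟩
  refine ⟨m₀, fun m => ?_⟩
  have h1 := hg _ ⟨m₀ + m, rfl⟩
  have h2 := finrank_add_le m₀ m
  change ((Multiset.card (m₀ + m) : ℕ) : ℤ) - Module.finrank k (Lm (m₀ + m)) ≤ g at h1
  change ((Multiset.card m₀ : ℕ) : ℤ) - Module.finrank k (Lm m₀) = g at hm₀
  rw [Multiset.card_add] at h1
  push_cast at h1
  omega

end PGL.H48
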