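import Pool.Agent.Helper48_PGL.Defs

/-!
# Orbits of `SL₂(R)` and `PGL₂(R)` on `P¹(K)` for a Dedekind domain `R`
-/

set_option autoImplicit false

open scoped nonZeroDivisors
open FractionalIdeal

namespace Pool.Agent.Helper48_PGL

variable {R K : Type*} [CommRing R] [IsDedekindDomain R] [Field K] [Algebra R K]
  [IsFractionRing R K]

variable (R) in
/-- The fractional ideal generated by the coordinates of a vector. -/
noncomputable def fid (v : Fin 2 → K) : FractionalIdeal R⁰ K :=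
  spanSingleton R⁰ (v 0) + spanSingleton R⁰ (v 1)

theorem mem_fid (v : Fin 2 → K) (i : Fin 2) : v i ∈ fid R v := by
  fin_cases i
  · have : spanSingleton R⁰ (v 0) ≤ fid R v := le_self_add
    exact this (mem_spanSingleton_self _ _)
  · have : spanSingleton R⁰ (v 1) ≤ fid R v := le_add_self
    exact this (mem_spanSingleton_self _ _)

theorem fid_ne_zero {v : Fin 2 → K} (hv : v ≠ 0) : fid R v ≠ 0 := by
  intro h
  apply hv
  ext i
  have h0 := mem_fid (R := R) v i
  rw [h] at h0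
  exact (mem_zero_iff R⁰).1 h0

theorem fid_le {v : Fin 2 → K} {J : FractionalIdeal R⁰ K} (h : ∀ i, v i ∈ J) : fid R v ≤ J := by
  unfold fid
  exact sup_le (spanSingleton_le_iff_mem.2 (h 0)) (spanSingleton_le_iff_mem.2 (h 1))

variable (R) in
/-- The class of a nonzero vector. -/
noncomputable def cls (v : Fin 2 → K) (hv : v ≠ 0) : ClassGroup R :=
  ClassGroup.mk K (Units.mk0 (fid R v) (fid_ne_zero hv))

theorem fid_smul (c : K) (v : Fin 2 → K) :
    fid R (c • v) = spanSingleton R⁰ c * fid R v := by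
  simp only [fid, Pi.smul_apply, smul_eq_mul, mul_add, spanSingleton_mul_spanSingleton]

/-- Equality in the class group. -/
theorem mk_eq_mk_iff (I J : (FractionalIdeal R⁰ K)ˣ) :
    ClassGroup.mk K I = ClassGroup.mk K J ↔
      ∃ c : K, c ≠ 0 ∧ (J : FractionalIdeal R⁰ K) = spanSingleton R⁰ c * I := by
  rw [eq_comm, ← div_eq_one, ← map_div, ClassGroup.mk_eq_one_iff, isPrincipal_iff]
  constructor
  · rintro ⟨c, hc⟩
    have hJ : (J : FractionalIdeal R⁰ K) = spanSingleton R⁰ c * I := by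
      rw [← hc, div_eq_mul_inv, Units.val_mul, mul_assoc, ← Units.val_mul, inv_mul_cancel]
      simp
    refine ⟨c, ?_, hJ⟩
    rintro rfl
    rw [spanSingleton_zero, zero_mul] at hJ
    exact J.ne_zero hJ
  · rintro ⟨c, hc, hJ⟩
    refine ⟨c, ?_⟩
    rw [div_eq_mul_inv, Units.val_mul, hJ, mul_assoc, ← Units.val_mul, mul_inv_cancel]
    simp

theorem cls_eq_iff {v w : Fin 2 → K} (hv : v ≠ 0) (hw : w ≠ 0) :
    cls R v hv = cls R w hw ↔ ∃ c : K, c ≠ 0 ∧ fid R w = spanSingleton R⁰ c * fid R v := by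
  rw [cls, cls, mk_eq_mk_iff]
  rfl

theorem mulVec_apply_two (M : Matrix (Fin 2) (Fin 2) K) (v : Fin 2 → K) (i : Fin 2) :
    M.mulVec v i = M i 0 * v 0 + M i 1 * v 1 := by
  simp [Matrix.mulVec, dotProduct, Fin.sum_univ_two]

theorem fid_mulVec_le {M : Matrix (Fin 2) (Fin 2) K} {J : FractionalIdeal R⁰ K}
    (h : ∀ i j, M i j ∈ J) (v : Fin 2 → K) : fid R (M.mulVec v) ≤ J * fid R v := by
  apply fid_le
  intro i
  rw [mulVec_apply_two]
  exact Submodule.add_mem _ (mul_mem_mul (h i 0) (mem_fid v 0)) (mul_mem_mul (h i 1) (mem_fid v 1))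

/-- A dual vector. -/
theorem exists_dual {v : Fin 2 → K} (hv : v ≠ 0) :
    ∃ a b : K, a ∈ (fid R v)⁻¹ ∧ b ∈ (fid R v)⁻¹ ∧ v 0 * a + v 1 * b = 1 := by
  have h1 : (1 : K) ∈ fid R v * (fid R v)⁻¹ := by
    rw [mul_inv_cancel₀ (fid_ne_zero hv)]
    exact one_mem_one _
  have h2 : fid R v * (fid R v)⁻¹ = spanSingleton R⁰ (v 0) * (fid R v)⁻¹ +
      spanSingleton R⁰ (v 1) * (fid R v)⁻¹ := by
    conv_lhs => rw [fid, add_mul]
    rfl
  rw [h2, mem_add] at h1
  obtain ⟨p, hp, q, hq, hpq⟩ := h1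
  rw [mem_singleton_mul] at hp hq
  obtain ⟨a, ha, rfl⟩ := hp
  obtain ⟨b, hb, rfl⟩ := hq
  exact ⟨a, b, ha, hb, hpq⟩

theorem mem_one_of_mem {I : FractionalIdeal R⁰ K} (hI : I ≠ 0) {x y : K} (hx : x ∈ I)
    (hy : y ∈ I⁻¹) : ∃ r : R, algebraMap R K r = x * y := by
  have : x * y ∈ I * I⁻¹ := mul_mem_mul hx hy
  rw [mul_inv_cancel₀ hI] at this
  exact (mem_one_iff R⁰).1 this

/-- Vectors with the same fractional ideal are `SL₂(R)`-equivalent. -/
theorem exists_sl {v w : Fin 2 → K} (hv : v ≠ 0) (hw : w ≠ 0) (h : fid R v = fid R w) :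
    ∃ g : Matrix.SpecialLinearGroup (Fin 2) R,
      ((g : Matrix (Fin 2) (Fin 2) R).map (algebraMap R K)).mulVec v = w := by
  obtain ⟨a, b, ha, hb, hab⟩ := exists_dual (R := R) hv
  obtain ⟨a', b', ha', hb', hab'⟩ := exists_dual (R := R) hw
  have hw' : ∀ i, w i ∈ fid R v := fun i => h ▸ mem_fid w i
  rw [← h] at ha' hb'
  have hI := fid_ne_zero (R := R) hv
  obtain ⟨r1, h1⟩ := mem_one_of_mem hI (hw' 0) ha
  obtain ⟨r2, h2⟩ := mem_one_of_mem hI (hw' 0) hb
  obtain ⟨r3, h3⟩ := mem_one_of_mem hI (hw' 1) ha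
  obtain ⟨r4, h4⟩ := mem_one_of_mem hI (hw' 1) hb
  obtain ⟨s1, k1⟩ := mem_one_of_mem hI (mem_fid v 1) hb'
  obtain ⟨s2, k2⟩ := mem_one_of_mem hI (mem_fid v 0) hb'
  obtain ⟨s3, k3⟩ := mem_one_of_mem hI (mem_fid v 1) ha'
  obtain ⟨s4, k4⟩ := mem_one_of_mem hI (mem_fid v 0) ha'
  have hdet : (r1 + s1) * (r4 + s4) - (r2 - s2) * (r3 - s3) = 1 := by
    apply IsFractionRing.injective R K
    simp only [map_sub, map_mul, map_add, map_one, h1, h2, h3, h4, k1, k2, k3, k4]
    linear_combination (w 0 * a' + w 1 * b') * hab + hab'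
  refine ⟨⟨!![r1 + s1, r2 - s2; r3 - s3, r4 + s4], by rw [Matrix.det_fin_two_of]; exact hdet⟩, ?_⟩
  ext i
  rw [mulVec_apply_two]
  fin_cases i
  · simp only [Matrix.map_apply, Matrix.of_apply, Matrix.cons_val', Matrix.cons_val_zero,
      Matrix.cons_val_one, Matrix.cons_val_fin_one, Fin.zero_eta, map_add, map_sub, h1, h2, k1, k2]
    linear_combination w 0 * hab
  · simp only [Matrix.map_apply, Matrix.of_apply, Matrix.cons_val', Matrix.cons_val_zero,
      Matrix.cons_val_one, Matrix.cons_val_fin_one, Fin.mk_one, map_add, map_sub, h3, h4, k3, k4]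
    linear_combination w 1 * hab

/-- `SL₂(R)` preserves the fractional ideal of a vector. -/
theorem fid_sl (g : Matrix.SpecialLinearGroup (Fin 2) R) (v : Fin 2 → K) :
    fid R (((g : Matrix (Fin 2) (Fin 2) R).map (algebraMap R K)).mulVec v) = fid R v := by
  have key : ∀ (g : Matrix.SpecialLinearGroup (Fin 2) R) (v : Fin 2 → K),
      fid R (((g : Matrix (Fin 2) (Fin 2) R).map (algebraMap R K)).mulVec v) ≤ fid R v := by
    intro g v
    have := fid_mulVec_le (R := R) (M := (g : Matrix (Fin 2) (Fin 2) R).map (algebraMap R K))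
      (J := 1) (fun i j => (mem_one_iff R⁰).2 ⟨_, rfl⟩) v
    rwa [one_mul] at this
  refine le_antisymm (key g v) ?_
  have h1 := key g⁻¹ (((g : Matrix (Fin 2) (Fin 2) R).map (algebraMap R K)).mulVec v)
  have h2 : (((g⁻¹ : Matrix.SpecialLinearGroup (Fin 2) R) : Matrix (Fin 2) (Fin 2) R).map
      (algebraMap R K)) * ((g : Matrix (Fin 2) (Fin 2) R).map (algebraMap R K)) = 1 := by
    rw [← Matrix.map_mul, ← Matrix.SpecialLinearGroup.coe_mul, inv_mul_cancel]
    simp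
  rwa [Matrix.mulVec_mulVec, h2, Matrix.one_mulVec] at h1

end Pool.Agent.Helper48_PGL
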