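import Mathlib

/-!
# Rank one quotients of spherical buildings: `SL₂` and `PGL₂`

For a split reductive group of semisimple rank one the spherical building over `K` is the discrete
set `P¹(K)` of proper parabolic (Borel) subgroups, i.e. the set of lines of `K²`.
-/

set_option autoImplicit false

namespace Pool.Agent.Helper48_PGL

variable (R K : Type*) [CommRing R] [Field K] [Algebra R K]

/-- The points of `P¹(K)`: the one-dimensional subspaces of `K²`. This is the (zero-dimensional)
spherical building of `SL₂(K)` and of `PGL₂(K)`. -/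
abbrev Lines := {L : Submodule K (Fin 2 → K) // Module.finrank K L = 1}

/-- `L` and `L'` are in the same `SL₂(R)`-orbit. -/
def slRel (L L' : Lines K) : Prop :=
  ∃ g : Matrix.SpecialLinearGroup (Fin 2) R,
    L.1.map (Matrix.toLin' ((g : Matrix (Fin 2) (Fin 2) R).map (algebraMap R K))) = L'.1

/-- `g ∈ GL₂(K)` represents an element of `PGL₂(R)`. Recall that `PGL₂` is the automorphism group
scheme of the matrix algebra `M₂`, so that `PGL₂(R)` is the group of all `R`-algebra automorphisms
`φ` of `M₂(R)`; the embedding of `PGL₂(R)` in `PGL₂(K) = GL₂(K)/K^×` sends `φ` to the class of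
those `g` with `φ(A) = g A g⁻¹` for all `A`. -/
def RepresentsPGL (g : GL (Fin 2) K) : Prop :=
  ∃ φ : Matrix (Fin 2) (Fin 2) R ≃ₐ[R] Matrix (Fin 2) (Fin 2) R,
    ∀ A : Matrix (Fin 2) (Fin 2) R,
      (φ A).map (algebraMap R K) =
        (g : Matrix (Fin 2) (Fin 2) K) * A.map (algebraMap R K) *
          ((g⁻¹ : GL (Fin 2) K) : Matrix (Fin 2) (Fin 2) K)

/-- `L` and `L'` are in the same `PGL₂(R)`-orbit. -/
def pglRel (L L' : Lines K) : Prop :=
  ∃ g : GL (Fin 2) K, RepresentsPGL R K g ∧
    L.1.map (Matrix.toLin' (g : Matrix (Fin 2) (Fin 2) K)) = L'.1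

/-- The quotient `Δ(SL₂(K))/SL₂(R)`, a discrete set. -/
abbrev SLQuotient := Quot (slRel R K)

/-- The quotient `Δ(PGL₂(K))/PGL₂(R)`, a discrete set. -/
abbrev PGLQuotient := Quot (pglRel R K)

end Pool.Agent.Helper48_PGL
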