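import Mathlib

/-!
# `ℚ(√-5)` has even class number
-/

set_option autoImplicit false

open Polynomial NumberField

namespace Pool.Agent.Helper48_PGL

/-- `X² + 5`. -/
noncomputable def poly5 : ℚ[X] := X ^ 2 + C 5

theorem poly5_natDegree : poly5.natDegree = 2 := by
  unfold poly5
  compute_degree!

theorem poly5_monic : poly5.Monic := by
  unfold poly5
  monicity!

theorem poly5_irreducible : Irreducible poly5 := by
  rw [Polynomial.irreducible_iff_roots_eq_zero_of_degree_le_three (by rw [poly5_natDegree])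
    (by rw [poly5_natDegree]; norm_num)]
  rw [Multiset.eq_zero_iff_forall_notMem]
  intro x hx
  have h1 := (mem_roots'.1 hx).2
  simp only [poly5, IsRoot.def, eval_add, eval_pow, eval_X, eval_C] at h1
  nlinarith [sq_nonneg x]

instance : Fact (Irreducible poly5) := ⟨poly5_irreducible⟩

/-- `ℚ(√-5)`. -/
abbrev K5 := AdjoinRoot poly5

/-- `√-5`. -/
noncomputable def al : K5 := AdjoinRoot.root poly5

theorem al_sq : al ^ 2 = -5 := by
  have h : eval₂ (AdjoinRoot.of poly5) (AdjoinRoot.root poly5) (X ^ 2 + C 5) = 0 :=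
    AdjoinRoot.eval₂_root poly5
  have h2 : (AdjoinRoot.of poly5) 5 = (5 : K5) := map_ofNat _ 5
  rw [eval₂_add, eval₂_X_pow, eval₂_C, h2] at h
  exact eq_neg_of_add_eq_zero_left h

theorem exists_repr (z : K5) : ∃ x y : ℚ, z = algebraMap ℚ K5 x + algebraMap ℚ K5 y * al := by
  obtain ⟨p, rfl⟩ := AdjoinRoot.mk_surjective z
  have h1 : AdjoinRoot.mk poly5 p = AdjoinRoot.mk poly5 (p %ₘ poly5) := by
    rw [AdjoinRoot.mk_eq_mk]
    exact ⟨p /ₘ poly5, by
      have := modByMonic_add_div p poly5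
      linear_combination -this⟩
  have h2 : (p %ₘ poly5).natDegree ≤ 1 := by
    have := natDegree_modByMonic_lt p poly5_monic (by
      intro h
      have := poly5_natDegree
      rw [h, natDegree_one] at this
      omega)
    rw [poly5_natDegree] at this
    omega
  obtain ⟨b, c, hbc⟩ := exists_eq_X_add_C_of_natDegree_le_one h2
  refine ⟨c, b, ?_⟩
  rw [h1, hbc, map_add, map_mul, AdjoinRoot.mk_X, AdjoinRoot.mk_C, AdjoinRoot.mk_C]
  change _ = AdjoinRoot.of poly5 c + AdjoinRoot.of poly5 b * AdjoinRoot.root poly5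
  ring

/-- Conjugation. -/
noncomputable def conj5 : K5 →ₐ[ℚ] K5 :=
  AdjoinRoot.liftAlgHom poly5 (Algebra.ofId ℚ K5) (-al) (by
    have h2 : (Algebra.ofId ℚ K5) 5 = (5 : K5) := map_ofNat _ 5
    simp only [poly5, eval₂_add, eval₂_X_pow, eval₂_C, neg_sq, al_sq]
    change -5 + (Algebra.ofId ℚ K5) 5 = 0
    rw [h2]
    ring)

theorem conj5_al : conj5 al = -al := by
  exact AdjoinRoot.liftAlgHom_root _ _ _ _

theorem conj5_repr (x y : ℚ) : conj5 (algebraMap ℚ K5 x + algebraMap ℚ K5 y * al)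
    = algebraMap ℚ K5 x - algebraMap ℚ K5 y * al := by
  rw [map_add, map_mul, conj5_al, AlgHom.commutes, AlgHom.commutes]
  ring

theorem int_of_integral {r : ℚ} (h : IsIntegral ℤ (algebraMap ℚ K5 r)) : ∃ m : ℤ, r = m := by
  rw [isIntegral_algebraMap_iff (algebraMap ℚ K5).injective] at h
  obtain ⟨m, hm⟩ := IsIntegrallyClosed.isIntegral_iff.1 h
  exact ⟨m, by rw [← hm]; simp⟩

theorem exists_norm_trace (z : K5) (hz : IsIntegral ℤ z) : ∃ (x y : ℚ) (m n : ℤ),
    z = algebraMap ℚ K5 x + algebraMap ℚ K5 y * al ∧ 2 * x = m ∧ x ^ 2 + 5 * y ^ 2 = n := by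
  obtain ⟨x, y, hxy⟩ := exists_repr z
  have hc : IsIntegral ℤ (conj5 z) := hz.map (conj5.toRingHom.toIntAlgHom)
  have h1 : z + conj5 z = algebraMap ℚ K5 (2 * x) := by
    rw [hxy, conj5_repr, map_mul, map_ofNat]; ring
  have h2 : z * conj5 z = algebraMap ℚ K5 (x ^ 2 + 5 * y ^ 2) := by
    rw [hxy, conj5_repr, map_add, map_mul, map_pow, map_pow, map_ofNat]
    linear_combination -(algebraMap ℚ K5 y) ^ 2 * al_sq
  obtain ⟨m, hm⟩ := int_of_integral (h1 ▸ hz.add hc)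
  obtain ⟨n, hn⟩ := int_of_integral (h2 ▸ hz.mul hc)
  exact ⟨x, y, m, n, hxy, hm, hn⟩

/-- The norm form `z ↦ z · z̄`. -/
theorem norm_eq (z : K5) (x y : ℚ) (h : z = algebraMap ℚ K5 x + algebraMap ℚ K5 y * al) :
    z * conj5 z = algebraMap ℚ K5 (x ^ 2 + 5 * y ^ 2) := by
  rw [h, conj5_repr, map_add, map_mul, map_pow, map_pow, map_ofNat]
  linear_combination -(algebraMap ℚ K5 y) ^ 2 * al_sq

/-- No integral `β` and unit `u` satisfy `β² = 2 u`. -/
theorem no_sqrt_two (β : 𝓞 K5) (u : (𝓞 K5)ˣ) (h : β ^ 2 = 2 * (u : 𝓞 K5)) : False := by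
  obtain ⟨x, y, m, n, hβ, hm, hn⟩ := exists_norm_trace (β : K5) β.isIntegral_coe
  obtain ⟨x', y', m', n', hu, hm', hn'⟩ := exists_norm_trace ((u : 𝓞 K5) : K5)
    (u : 𝓞 K5).isIntegral_coe
  obtain ⟨x'', y'', m'', n'', hv, hm'', hn''⟩ := exists_norm_trace (((u⁻¹ : (𝓞 K5)ˣ) : 𝓞 K5) : K5)
    ((u⁻¹ : (𝓞 K5)ˣ) : 𝓞 K5).isIntegral_coe
  have e1 := norm_eq _ _ _ hβ
  have e2 := norm_eq _ _ _ hu
  have e3 := norm_eq _ _ _ hv
  rw [hn] at e1
  rw [hn'] at e2
  rw [hn''] at e3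
  have h1 : (β : K5) ^ 2 = 2 * ((u : 𝓞 K5) : K5) := by
    have := congrArg (algebraMap (𝓞 K5) K5) h
    rw [map_pow, map_mul, map_ofNat] at this
    exact this
  have h2 : ((u : 𝓞 K5) : K5) * (((u⁻¹ : (𝓞 K5)ˣ) : 𝓞 K5) : K5) = 1 := by
    have := congrArg (algebraMap (𝓞 K5) K5) u.mul_inv
    rw [map_mul, map_one] at this
    exact this
  have k1 : algebraMap ℚ K5 ((n : ℚ) ^ 2) = algebraMap ℚ K5 (4 * (n' : ℚ)) := by
    rw [map_pow, map_mul, map_ofNat, ← e1, ← e2]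
    have h3 := congrArg conj5 h1
    rw [map_pow, map_mul, map_ofNat] at h3
    calc ((β : K5) * conj5 (β : K5)) ^ 2 = (β : K5) ^ 2 * conj5 (β : K5) ^ 2 := by ring
      _ = _ := by rw [h1, h3]; ring
  have k2 : algebraMap ℚ K5 ((n' : ℚ) * n'') = algebraMap ℚ K5 1 := by
    rw [map_mul, map_one, ← e2, ← e3]
    have h3 := congrArg conj5 h2
    rw [map_mul, map_one] at h3
    linear_combination h3 * ((u : 𝓞 K5) : K5) * (((u⁻¹ : (𝓞 K5)ˣ) : 𝓞 K5) : K5) + h2
  have k1' : n ^ 2 = 4 * n' := by exact_mod_cast (algebraMap ℚ K5).injective k1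
  have k2' : n' * n'' = 1 := by exact_mod_cast (algebraMap ℚ K5).injective k2
  have hn0 : 0 ≤ n := by
    have : (0 : ℚ) ≤ n := by rw [← hn]; positivity
    exact_mod_cast this
  have hn'0 : 0 ≤ n' := by
    have : (0 : ℚ) ≤ n' := by rw [← hn']; positivity
    exact_mod_cast this
  have hn'1 : n' = 1 := by
    rcases Int.eq_one_or_neg_one_of_mul_eq_one k2' with h | h
    · exact h
    · omega
  have hn2 : n = 2 := by
    rw [hn'1] at k1'
    nlinarith
  rw [hn2] at hn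
  -- `m² + 20 y² = 8`
  have h5 : (10 * y) ^ 2 = 40 - 5 * (m : ℚ) ^ 2 := by
    rw [← hm]
    push_cast at hn
    linear_combination 20 * hn
  have h6 : IsIntegral ℤ (10 * y) := by
    apply IsIntegral.of_pow (n := 2) (by norm_num)
    rw [h5]
    have : (40 - 5 * (m : ℚ) ^ 2) = ((40 - 5 * m ^ 2 : ℤ) : ℚ) := by push_cast; ring
    rw [this]
    exact isIntegral_algebraMap (R := ℤ) (A := ℚ) (x := 40 - 5 * m ^ 2)
  obtain ⟨t, ht⟩ := IsIntegrallyClosed.isIntegral_iff.1 h6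
  have ht' : (10 * y) = (t : ℚ) := by rw [← ht]; simp
  rw [ht'] at h5
  have h7 : t ^ 2 = 40 - 5 * m ^ 2 := by exact_mod_cast h5
  have hm2 : m ^ 2 ≤ 8 := by nlinarith [sq_nonneg t]
  have hm3 : m ≤ 2 := by nlinarith
  have hm4 : -2 ≤ m := by nlinarith
  have ht3 : t ≤ 6 := by nlinarith [sq_nonneg m]
  have ht4 : -6 ≤ t := by nlinarith [sq_nonneg m]
  interval_cases m <;> interval_cases t <;> omega

/-- `√-5` as an algebraic integer. -/
theorem exists_alO : ∃ a : 𝓞 K5, a ^ 2 = -5 := by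
  have : IsIntegral ℤ al := by
    apply IsIntegral.of_pow (n := 2) (by norm_num)
    rw [al_sq]
    have : (-5 : K5) = algebraMap ℤ K5 (-5) := by simp
    rw [this]
    exact isIntegral_algebraMap
  let a : 𝓞 K5 := ⟨al, this⟩
  have ha : algebraMap (𝓞 K5) K5 a = al := rfl
  refine ⟨a, ?_⟩
  apply FaithfulSMul.algebraMap_injective (𝓞 K5) K5
  rw [map_pow, ha, map_neg, map_ofNat, al_sq]

/-- The class number of `ℚ(√-5)` is even. -/
theorem even_classNumber : Even (Nat.card (ClassGroup (𝓞 K5))) := by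
  obtain ⟨a, ha⟩ := exists_alO
  let J : Ideal (𝓞 K5) := Ideal.span {2, 1 + a}
  have hJ2 : J * J = Ideal.span {2} := by
    apply le_antisymm
    · rw [Ideal.span_mul_span', Ideal.span_le]
      rintro _ ⟨x, hx, y, hy, rfl⟩
      simp only [Set.mem_insert_iff, Set.mem_singleton_iff] at hx hy
      rw [SetLike.mem_coe, Ideal.mem_span_singleton]
      rcases hx with rfl | rfl <;> rcases hy with rfl | rfl
      · exact ⟨2, rfl⟩
      · exact ⟨_, rfl⟩
      · exact ⟨_, mul_comm _ _⟩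
      · exact ⟨a - 2, by linear_combination ha⟩
    · rw [Ideal.span_singleton_le_iff_mem]
      have h2 : (2 : 𝓞 K5) ∈ J := Ideal.subset_span (by simp)
      have h1 : 1 + a ∈ J := Ideal.subset_span (by simp)
      have e : (2 : 𝓞 K5) = 2 * (1 + a) - (1 + a) * (1 + a) - 2 * 2 := by
        linear_combination ha
      have : 2 * (1 + a) - (1 + a) * (1 + a) - 2 * 2 ∈ J * J :=
        sub_mem (sub_mem (Ideal.mul_mem_mul h2 h1) (Ideal.mul_mem_mul h1 h1))
          (Ideal.mul_mem_mul h2 h2)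
      rwa [← e] at this
  have hJ0 : J ≠ 0 := by
    intro h
    have h2 : (2 : 𝓞 K5) ∈ J := Ideal.subset_span (by simp)
    rw [h] at h2
    have : (2 : 𝓞 K5) = 0 := h2
    exact two_ne_zero this
  have hJmem : J ∈ nonZeroDivisors (Ideal (𝓞 K5)) := mem_nonZeroDivisors_of_ne_zero hJ0
  have hsq : ClassGroup.mk0 ⟨J, hJmem⟩ ^ 2 = 1 := by
    rw [← map_pow]
    have h3 : (⟨J, hJmem⟩ : nonZeroDivisors (Ideal (𝓞 K5))) ^ 2 =
        ⟨Ideal.span {2}, by rw [← hJ2]; exact mul_mem hJmem hJmem⟩ := by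
      ext1
      rw [pow_two]
      exact hJ2
    rw [h3, ClassGroup.mk0_eq_one_iff]
    exact ⟨⟨2, rfl⟩⟩
  have hne : ClassGroup.mk0 ⟨J, hJmem⟩ ≠ 1 := by
    intro h
    rw [ClassGroup.mk0_eq_one_iff] at h
    obtain ⟨β, hβ⟩ := h.principal
    have h4 : Ideal.span {β ^ 2} = Ideal.span {(2 : 𝓞 K5)} := by
      rw [← hJ2, pow_two, ← Ideal.span_singleton_mul_span_singleton]
      have : J = Ideal.span {β} := hβ
      rw [this]
    rw [Ideal.span_singleton_eq_span_singleton] at h4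
    obtain ⟨u, hu⟩ := h4.symm
    exact no_sqrt_two β u hu.symm
  have hord : orderOf (ClassGroup.mk0 ⟨J, hJmem⟩) = 2 := orderOf_eq_prime hsq hne
  rw [even_iff_two_dvd, ← hord]
  exact orderOf_dvd_natCard _

end Pool.Agent.Helper48_PGL
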