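import Pool.Agent.Helper48_PGL.Pgl

/-!
# The two orbit sets and the class group
-/

set_option autoImplicit false

open scoped nonZeroDivisors
open FractionalIdeal

namespace Pool.Agent.Helper48_PGL

variable {R K : Type*} [CommRing R] [IsDedekindDomain R] [Field K] [Algebra R K]
  [IsFractionRing R K]

theorem exists_rep (L : Lines K) : ∃ v : Fin 2 → K, v ≠ 0 ∧ L.1 = Submodule.span K {v} := by
  obtain ⟨v, hv, h⟩ := finrank_eq_one_iff'.1 L.2
  refine ⟨v, fun h0 => hv (Subtype.ext h0), ?_⟩
  apply le_antisymm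
  · intro x hx
    obtain ⟨c, hc⟩ := h ⟨x, hx⟩
    rw [Submodule.mem_span_singleton]
    exact ⟨c, congrArg Subtype.val hc⟩
  · rw [Submodule.span_singleton_le_iff_mem]
    exact v.2

/-- A chosen nonzero vector of a line. -/
noncomputable def rep (L : Lines K) : Fin 2 → K := (exists_rep L).choose

theorem rep_ne_zero (L : Lines K) : rep L ≠ 0 := (exists_rep L).choose_spec.1

theorem span_rep (L : Lines K) : L.1 = Submodule.span K {rep L} := (exists_rep L).choose_spec.2

variable (R) in
/-- The class of a line. -/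
noncomputable def clsL (L : Lines K) : ClassGroup R := cls R (rep L) (rep_ne_zero L)

theorem clsL_eq {L : Lines K} {v : Fin 2 → K} (hv : v ≠ 0) (hL : L.1 = Submodule.span K {v}) :
    clsL R L = cls R v hv := by
  have h := (span_rep L).symm.trans hL
  rw [Submodule.span_singleton_eq_span_singleton] at h
  obtain ⟨c, hc⟩ := h
  rw [clsL, cls_eq_iff]
  refine ⟨c, c.ne_zero, ?_⟩
  rw [← fid_smul, ← hc]
  rfl

/-- The line spanned by a vector. -/
def mkLine (v : Fin 2 → K) (hv : v ≠ 0) : Lines K :=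
  ⟨Submodule.span K {v}, finrank_span_singleton hv⟩

theorem map_line {L L' : Lines K} {M : Matrix (Fin 2) (Fin 2) K} :
    L.1.map (Matrix.toLin' M) = L'.1 ↔
      Submodule.span K {M.mulVec (rep L)} = Submodule.span K {rep L'} := by
  rw [span_rep L, span_rep L', Submodule.map_span, Set.image_singleton, Matrix.toLin'_apply]

theorem slRel_iff (L L' : Lines K) : slRel R K L L' ↔ clsL R L = clsL R L' := by
  constructor
  · rintro ⟨g, hg⟩
    rw [map_line, Submodule.span_singleton_eq_span_singleton] at hg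
    obtain ⟨c, hc⟩ := hg
    rw [clsL, clsL, cls_eq_iff]
    refine ⟨c, c.ne_zero, ?_⟩
    rw [← fid_sl g (rep L), ← fid_smul, ← hc]
    rfl
  · intro h
    rw [clsL, clsL, cls_eq_iff] at h
    obtain ⟨c, hc, h⟩ := h
    rw [← fid_smul] at h
    have hne : c • rep L ≠ 0 := smul_ne_zero hc (rep_ne_zero L)
    obtain ⟨g, hg⟩ := exists_sl hne (rep_ne_zero L') h.symm
    refine ⟨g, ?_⟩
    rw [map_line, Submodule.span_singleton_eq_span_singleton]
    refine ⟨Units.mk0 c hc, ?_⟩
    rw [← hg, Matrix.mulVec_smul]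
    rfl

theorem mulVec_ne_zero (g : GL (Fin 2) K) {v : Fin 2 → K} (hv : v ≠ 0) :
    (g : Matrix (Fin 2) (Fin 2) K).mulVec v ≠ 0 := by
  intro h
  apply hv
  have h1 : ((g⁻¹ : GL (Fin 2) K) : Matrix (Fin 2) (Fin 2) K) *
      (g : Matrix (Fin 2) (Fin 2) K) = 1 := by
    rw [← Units.val_mul, inv_mul_cancel]; rfl
  have h2 := congrArg ((g⁻¹ : GL (Fin 2) K) : Matrix (Fin 2) (Fin 2) K).mulVec h
  rwa [Matrix.mulVec_mulVec, h1, Matrix.one_mulVec, Matrix.mulVec_zero] at h2

/-- Every class is the class of a vector. -/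
theorem exists_cls (x : ClassGroup R) : ∃ v : Fin 2 → K, ∃ hv : v ≠ 0, cls R v hv = x := by
  obtain ⟨I, rfl⟩ := ClassGroup.mk0_surjective x
  obtain ⟨a, ha, ha0⟩ := Submodule.exists_mem_ne_zero_of_ne_bot
    (nonZeroDivisors.coe_ne_zero I : (I : Ideal R) ≠ ⊥)
  obtain ⟨b, hb⟩ := IsDedekindDomain.exists_eq_span_pair ha ha0
  have hv : (![algebraMap R K a, algebraMap R K b] : Fin 2 → K) ≠ 0 := by
    intro h
    have := congrFun h 0
    simp only [Matrix.cons_val_zero, Pi.zero_apply, map_eq_zero_iff _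
      (IsFractionRing.injective R K)] at this
    exact ha0 this
  refine ⟨![algebraMap R K a, algebraMap R K b], hv, ?_⟩
  have h1 : fid R (![algebraMap R K a, algebraMap R K b] : Fin 2 → K)
      = ((I : Ideal R) : FractionalIdeal R⁰ K) := by
    rw [hb, fid, Ideal.span_insert, coeIdeal_sup, coeIdeal_span_singleton,
      coeIdeal_span_singleton]
    rfl
  rw [cls, ← ClassGroup.mk_mk0 K]
  congr 1
  ext1
  simp [h1]

/-- The matrix attached to a class of order two. -/
theorem exists_pgl {z : Fin 2 → K} (hz : z ≠ 0) {d : K}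
    (hd : fid R z * fid R z = spanSingleton R⁰ d) :
    ∃ g : GL (Fin 2) K, (∀ i j, (g : Matrix (Fin 2) (Fin 2) K) i j ∈ fid R z) ∧
      (∀ i j, ((g⁻¹ : GL (Fin 2) K) : Matrix (Fin 2) (Fin 2) K) i j ∈ (fid R z)⁻¹) := by
  obtain ⟨a, b, ha, hb, hab⟩ := exists_dual (R := R) hz
  have hJ := fid_ne_zero (R := R) hz
  have hd0 : d ≠ 0 := by
    rintro rfl
    rw [spanSingleton_zero, mul_self_eq_zero] at hd
    exact hJ hd
  have h1 : ∀ x ∈ (fid R z)⁻¹, d * x ∈ fid R z := by
    intro x hx
    have h2 : d * x ∈ spanSingleton R⁰ d * (fid R z)⁻¹ :=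
      mul_mem_mul (mem_spanSingleton_self _ _) hx
    rwa [← hd, mul_assoc, mul_inv_cancel₀ hJ, mul_one] at h2
  have h3 : ∀ x ∈ fid R z, d⁻¹ * x ∈ (fid R z)⁻¹ := by
    intro x hx
    have h2 : d⁻¹ * x ∈ spanSingleton R⁰ d⁻¹ * fid R z :=
      mul_mem_mul (mem_spanSingleton_self _ _) hx
    have h4 : spanSingleton R⁰ d⁻¹ * fid R z = (fid R z)⁻¹ := by
      have h5 : spanSingleton R⁰ d⁻¹ * (fid R z * fid R z) = 1 := by
        rw [hd, spanSingleton_mul_spanSingleton, inv_mul_cancel₀ hd0, spanSingleton_one]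
      rw [← mul_assoc] at h5
      exact eq_inv_of_mul_eq_one_left h5
    rwa [h4] at h2
  let G : Matrix (Fin 2) (Fin 2) K := !![z 0, -(d * b); z 1, d * a]
  let G' : Matrix (Fin 2) (Fin 2) K := !![a, b; -(d⁻¹ * z 1), d⁻¹ * z 0]
  have hGG' : G * G' = 1 := by
    ext i j
    fin_cases i <;> fin_cases j <;>
      simp only [G, G', Matrix.mul_apply, Fin.sum_univ_two, Matrix.of_apply, Matrix.cons_val',
        Matrix.cons_val_zero, Matrix.cons_val_one, Matrix.cons_val_fin_one, Fin.zero_eta,
        Fin.mk_one, Matrix.one_apply, reduceIte, zero_ne_one, one_ne_zero, Fin.isValue] <;>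
      field_simp
    · linear_combination hab
    · ring
    · ring
    · linear_combination hab
  have hG'G : G' * G = 1 := by
    exact mul_eq_one_comm.1 hGG'
  refine ⟨⟨G, G', hGG', hG'G⟩, ?_, ?_⟩
  · intro i j
    change G i j ∈ _
    fin_cases i <;> fin_cases j
    · exact mem_fid z 0
    · exact Submodule.neg_mem _ (h1 b hb)
    · exact mem_fid z 1
    · exact h1 a ha
  · intro i j
    change G' i j ∈ _
    fin_cases i <;> fin_cases j
    · exact ha
    · exact hb
    · exact Submodule.neg_mem _ (h3 _ (mem_fid z 1))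
    · exact h3 _ (mem_fid z 0)

theorem pglRel_iff (L L' : Lines K) : pglRel R K L L' ↔ clsL R L ^ 2 = clsL R L' ^ 2 := by
  constructor
  · rintro ⟨g, hg, hL⟩
    obtain ⟨J, hJ, hJ2, hJv⟩ := exists_ideal_of_represents hg
    have hne := mulVec_ne_zero g (rep_ne_zero L)
    have h1 : clsL R L' = cls R _ hne := by
      apply clsL_eq
      rw [span_rep L', ← map_line.1 hL]
    have h2 : cls R _ hne = ClassGroup.mk K (Units.mk0 J hJ) * clsL R L := by
      rw [cls, clsL, cls, ← map_mul]
      congr 1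
      ext1
      rw [Units.val_mul, Units.val_mk0, Units.val_mk0, Units.val_mk0]
      exact hJv _
    have h3 : ClassGroup.mk K (Units.mk0 J hJ) ^ 2 = 1 := by
      rw [← map_pow, ClassGroup.mk_eq_one_iff, isPrincipal_iff]
      refine ⟨(g : Matrix (Fin 2) (Fin 2) K).det, ?_⟩
      rw [← hJ2, pow_two, Units.val_mul]
      rfl
    rw [h1, h2, mul_pow, h3, one_mul]
  · intro h
    obtain ⟨z, hz, hκ⟩ := exists_cls (K := K) (clsL R L' / clsL R L)
    have h1 : cls R z hz ^ 2 = 1 := by rw [hκ, div_pow, h, div_self']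
    have h2 : ∃ d : K, fid R z * fid R z = spanSingleton R⁰ d := by
      rw [cls, ← map_pow, ClassGroup.mk_eq_one_iff, isPrincipal_iff] at h1
      obtain ⟨d, hd⟩ := h1
      refine ⟨d, ?_⟩
      rw [← hd, pow_two, Units.val_mul]
      rfl
    obtain ⟨d, hd⟩ := h2
    obtain ⟨g, hg1, hg2⟩ := exists_pgl hz hd
    have hJ := fid_ne_zero (R := R) hz
    have hrep := representsPGL_of_entries hJ hg1 hg2
    -- the class of `g L`
    have hne := mulVec_ne_zero g (rep_ne_zero L)
    have hfid : fid R ((g : Matrix (Fin 2) (Fin 2) K).mulVec (rep L)) = fid R z * fid R (rep L) := by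
      apply le_antisymm (fid_mulVec_le hg1 _)
      have h3 := fid_mulVec_le hg2 ((g : Matrix (Fin 2) (Fin 2) K).mulVec (rep L))
      have h4 : ((g⁻¹ : GL (Fin 2) K) : Matrix (Fin 2) (Fin 2) K) *
          (g : Matrix (Fin 2) (Fin 2) K) = 1 := by
        rw [← Units.val_mul, inv_mul_cancel]; rfl
      rw [Matrix.mulVec_mulVec, h4, Matrix.one_mulVec] at h3
      calc fid R z * fid R (rep L)
          ≤ fid R z * ((fid R z)⁻¹ * fid R ((g : Matrix (Fin 2) (Fin 2) K).mulVec (rep L))) := by
            gcongr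
        _ = _ := by rw [← mul_assoc, mul_inv_cancel₀ hJ, one_mul]
    have hcls : cls R _ hne = clsL R L' := by
      have h5 : cls R _ hne = cls R z hz * clsL R L := by
        rw [cls, cls, clsL, cls, ← map_mul]
        congr 1
        ext1
        rw [Units.val_mul, Units.val_mk0, Units.val_mk0, Units.val_mk0]
        exact hfid
      rw [h5, hκ, div_mul_cancel]
    rw [clsL, cls_eq_iff] at hcls
    obtain ⟨c, hc, h6⟩ := hcls
    rw [← fid_smul] at h6
    have hne' : c • (g : Matrix (Fin 2) (Fin 2) K).mulVec (rep L) ≠ 0 := smul_ne_zero hc hne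
    obtain ⟨s, hs⟩ := exists_sl hne' (rep_ne_zero L') h6.symm
    -- the product
    let S : Matrix (Fin 2) (Fin 2) K := (s : Matrix (Fin 2) (Fin 2) R).map (algebraMap R K)
    let S' : Matrix (Fin 2) (Fin 2) K :=
      ((s⁻¹ : Matrix.SpecialLinearGroup (Fin 2) R) : Matrix (Fin 2) (Fin 2) R).map
        (algebraMap R K)
    have hSS' : S * S' = 1 := by
      simp only [S, S']
      rw [← Matrix.map_mul, ← Matrix.SpecialLinearGroup.coe_mul, mul_inv_cancel]
      simp
    have hS'S : S' * S = 1 := by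
      exact mul_eq_one_comm.1 hSS'
    let sK : GL (Fin 2) K := ⟨S, S', hSS', hS'S⟩
    have hS1 : ∀ i j, S i j ∈ (1 : FractionalIdeal R⁰ K) := fun i j => (mem_one_iff R⁰).2 ⟨_, rfl⟩
    have hS2 : ∀ i j, S' i j ∈ (1 : FractionalIdeal R⁰ K) := fun i j => (mem_one_iff R⁰).2 ⟨_, rfl⟩
    refine ⟨sK * g, representsPGL_of_entries (J := fid R z) hJ ?_ ?_, ?_⟩
    · intro i j
      have := mul_entries hS1 hg1 i j
      rwa [one_mul] at this
    · intro i j
      have := mul_entries hg2 hS2 i j
      rw [mul_one] at this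
      rw [mul_inv_rev]
      exact this
    · rw [map_line, Submodule.span_singleton_eq_span_singleton]
      refine ⟨Units.mk0 c hc, ?_⟩
      rw [← hs, Matrix.mulVec_smul, Matrix.mulVec_mulVec]
      rfl

theorem exists_line (x : ClassGroup R) : ∃ L : Lines K, clsL R L = x := by
  obtain ⟨v, hv, rfl⟩ := exists_cls (K := K) x
  exact ⟨mkLine v hv, clsL_eq hv rfl⟩

/-- `SL₂(R)\P¹(K)` is the class group. -/
noncomputable def slEquiv : SLQuotient R K ≃ ClassGroup R :=
  Equiv.ofBijective (Quot.lift (clsL R) fun L L' h => (slRel_iff L L').1 h) (by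
    constructor
    · rintro ⟨L⟩ ⟨L'⟩ h
      exact Quot.sound ((slRel_iff L L').2 h)
    · intro x
      obtain ⟨L, hL⟩ := exists_line (K := K) x
      exact ⟨Quot.mk _ L, hL⟩)

/-- `PGL₂(R)\P¹(K)` is the group of squares of the class group. -/
noncomputable def pglEquiv : PGLQuotient R K ≃ Set.range (fun x : ClassGroup R => x ^ 2) :=
  Equiv.ofBijective (Quot.lift (fun L => ⟨clsL R L ^ 2, ⟨clsL R L, rfl⟩⟩)
    fun L L' h => Subtype.ext ((pglRel_iff L L').1 h)) (by
    constructor
    · rintro ⟨L⟩ ⟨L'⟩ h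
      exact Quot.sound ((pglRel_iff L L').2 (congrArg Subtype.val h))
    · rintro ⟨_, x, rfl⟩
      obtain ⟨L, hL⟩ := exists_line (K := K) x
      exact ⟨Quot.mk _ L, Subtype.ext (by rw [← hL])⟩)

/-- If the class group is finite then the two quotients are equinumerous iff its order is odd. -/
theorem nonempty_equiv_iff [Finite (ClassGroup R)] :
    Nonempty (PGLQuotient R K ≃ SLQuotient R K) ↔ Odd (Nat.card (ClassGroup R)) := by
  constructor
  · rintro ⟨e⟩
    by_contra hodd
    rw [Nat.not_odd_iff_even, even_iff_two_dvd] at hodd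
    obtain ⟨x, hx⟩ := exists_prime_orderOf_dvd_card' 2 hodd
    let e' : Set.range (fun x : ClassGroup R => x ^ 2) ≃ ClassGroup R :=
      (pglEquiv.symm.trans e).trans slEquiv
    have h1 : (Set.range (fun x : ClassGroup R => x ^ 2)) = Set.univ := by
      apply Set.eq_of_subset_of_ncard_le (Set.subset_univ _) _ (Set.toFinite _)
      rw [Set.ncard_univ, ← Nat.card_coe_set_eq, Nat.card_congr e']
    have hsurj : Function.Surjective (fun x : ClassGroup R => x ^ 2) := Set.range_eq_univ.1 h1
    have hinj := Finite.injective_iff_surjective.2 hsurj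
    have h2 : x ^ 2 = (1 : ClassGroup R) ^ 2 := by
      rw [one_pow, ← hx, pow_orderOf_eq_one]
    have h3 : x = 1 := hinj h2
    rw [h3, orderOf_one] at hx
    omega
  · intro hodd
    have hcop : (Nat.card (ClassGroup R)).Coprime 2 := hodd.coprime_two_right
    have hbij : Function.Bijective (fun x : ClassGroup R => x ^ 2) := (powCoprime hcop).bijective
    have h1 : (Set.range (fun x : ClassGroup R => x ^ 2)) = Set.univ :=
      Set.range_eq_univ.2 hbij.surjective
    exact ⟨(pglEquiv.trans ((Equiv.setCongr h1).trans (Equiv.Set.univ _))).trans slEquiv.symm⟩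

end Pool.Agent.Helper48_PGL
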