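import Pool.Agent.Helper48_PGL.Basic

/-!
# Orbits of `PGL₂(R)` on `P¹(K)` for a Dedekind domain `R`
-/

set_option autoImplicit false

open scoped nonZeroDivisors
open FractionalIdeal

namespace Pool.Agent.Helper48_PGL

variable {R K : Type*} [CommRing R] [IsDedekindDomain R] [Field K] [Algebra R K]
  [IsFractionRing R K]

/-- The embedding `M₂(R) → M₂(K)`. -/
noncomputable def iota (R K : Type*) [CommRing R] [Field K] [Algebra R K] :
    Matrix (Fin 2) (Fin 2) R →ₐ[R] Matrix (Fin 2) (Fin 2) K :=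
  (Algebra.ofId R K).mapMatrix

theorem iota_apply (A : Matrix (Fin 2) (Fin 2) R) : iota R K A = A.map (algebraMap R K) := rfl

theorem iota_injective : Function.Injective (iota R K) := by
  intro A B h
  ext i j
  have := congrFun (congrFun h i) j
  exact IsFractionRing.injective R K this

theorem mem_range_iota {M : Matrix (Fin 2) (Fin 2) K} :
    M ∈ (iota R K).range ↔ ∀ i j, M i j ∈ (1 : FractionalIdeal R⁰ K) := by
  constructor
  · rintro ⟨A, rfl⟩ i j
    exact (mem_one_iff R⁰).2 ⟨A i j, rfl⟩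
  · intro h
    choose A hA using fun i j => (mem_one_iff R⁰).1 (h i j)
    exact ⟨Matrix.of A, by ext i j; exact hA i j⟩

theorem mul_entries {M N : Matrix (Fin 2) (Fin 2) K} {I J : FractionalIdeal R⁰ K}
    (hM : ∀ i j, M i j ∈ I) (hN : ∀ i j, N i j ∈ J) (i j : Fin 2) : (M * N) i j ∈ I * J := by
  rw [Matrix.mul_apply, Fin.sum_univ_two]
  exact Submodule.add_mem _ (mul_mem_mul (hM i 0) (hN 0 j)) (mul_mem_mul (hM i 1) (hN 1 j))

/-- Conjugation by `g` as an algebra automorphism of `M₂(K)` over `R`. -/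
noncomputable def conjK (g : GL (Fin 2) K) :
    Matrix (Fin 2) (Fin 2) K ≃ₐ[R] Matrix (Fin 2) (Fin 2) K :=
  AlgEquiv.ofAlgHom
    { toFun := fun A => (g : Matrix (Fin 2) (Fin 2) K) * A *
        ((g⁻¹ : GL (Fin 2) K) : Matrix (Fin 2) (Fin 2) K)
      map_one' := by rw [mul_one, ← Units.val_mul, mul_inv_cancel]; rfl
      map_mul' := fun A B => by
        have h : ((g⁻¹ : GL (Fin 2) K) : Matrix (Fin 2) (Fin 2) K) *
            (g : Matrix (Fin 2) (Fin 2) K) = 1 := by
          rw [← Units.val_mul, inv_mul_cancel]; rfl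
        calc (g : Matrix (Fin 2) (Fin 2) K) * (A * B) *
              ((g⁻¹ : GL (Fin 2) K) : Matrix (Fin 2) (Fin 2) K)
            = (g : Matrix (Fin 2) (Fin 2) K) * A * 1 * B *
              ((g⁻¹ : GL (Fin 2) K) : Matrix (Fin 2) (Fin 2) K) := by
              simp only [Matrix.mul_one, Matrix.mul_assoc]
          _ = _ := by rw [← h]; simp only [Matrix.mul_assoc]
      map_zero' := by simp
      map_add' := fun A B => by rw [Matrix.mul_add, Matrix.add_mul]
      commutes' := fun r => by
        have h : (g : Matrix (Fin 2) (Fin 2) K) *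
            ((g⁻¹ : GL (Fin 2) K) : Matrix (Fin 2) (Fin 2) K) = 1 := by
          rw [← Units.val_mul, mul_inv_cancel]; rfl
        rw [← Algebra.commutes, Matrix.mul_assoc, h, Matrix.mul_one] }
    { toFun := fun A => ((g⁻¹ : GL (Fin 2) K) : Matrix (Fin 2) (Fin 2) K) * A *
        (g : Matrix (Fin 2) (Fin 2) K)
      map_one' := by rw [mul_one, ← Units.val_mul, inv_mul_cancel]; rfl
      map_mul' := fun A B => by
        have h : (g : Matrix (Fin 2) (Fin 2) K) *
            ((g⁻¹ : GL (Fin 2) K) : Matrix (Fin 2) (Fin 2) K) = 1 := by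
          rw [← Units.val_mul, mul_inv_cancel]; rfl
        calc ((g⁻¹ : GL (Fin 2) K) : Matrix (Fin 2) (Fin 2) K) * (A * B) *
              (g : Matrix (Fin 2) (Fin 2) K)
            = ((g⁻¹ : GL (Fin 2) K) : Matrix (Fin 2) (Fin 2) K) * A * 1 * B *
              (g : Matrix (Fin 2) (Fin 2) K) := by
              simp only [Matrix.mul_one, Matrix.mul_assoc]
          _ = _ := by rw [← h]; simp only [Matrix.mul_assoc]
      map_zero' := by simp
      map_add' := fun A B => by rw [Matrix.mul_add, Matrix.add_mul]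
      commutes' := fun r => by
        have h : ((g⁻¹ : GL (Fin 2) K) : Matrix (Fin 2) (Fin 2) K) *
            (g : Matrix (Fin 2) (Fin 2) K) = 1 := by
          rw [← Units.val_mul, inv_mul_cancel]; rfl
        rw [← Algebra.commutes, Matrix.mul_assoc, h, Matrix.mul_one] }
    (by
      ext1 A
      have h : (g : Matrix (Fin 2) (Fin 2) K) *
          ((g⁻¹ : GL (Fin 2) K) : Matrix (Fin 2) (Fin 2) K) = 1 := by
        rw [← Units.val_mul, mul_inv_cancel]; rfl
      change (g : Matrix (Fin 2) (Fin 2) K) * (((g⁻¹ : GL (Fin 2) K) : Matrix (Fin 2) (Fin 2) K)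
        * A * (g : Matrix (Fin 2) (Fin 2) K)) *
        ((g⁻¹ : GL (Fin 2) K) : Matrix (Fin 2) (Fin 2) K) = A
      rw [Matrix.mul_assoc, Matrix.mul_assoc, Matrix.mul_assoc, h, Matrix.mul_one,
        ← Matrix.mul_assoc, h, Matrix.one_mul])
    (by
      ext1 A
      have h : ((g⁻¹ : GL (Fin 2) K) : Matrix (Fin 2) (Fin 2) K) *
          (g : Matrix (Fin 2) (Fin 2) K) = 1 := by
        rw [← Units.val_mul, inv_mul_cancel]; rfl
      change ((g⁻¹ : GL (Fin 2) K) : Matrix (Fin 2) (Fin 2) K) * ((g : Matrix (Fin 2) (Fin 2) K)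
        * A * ((g⁻¹ : GL (Fin 2) K) : Matrix (Fin 2) (Fin 2) K)) *
        (g : Matrix (Fin 2) (Fin 2) K) = A
      rw [Matrix.mul_assoc, Matrix.mul_assoc, Matrix.mul_assoc, h, Matrix.mul_one,
        ← Matrix.mul_assoc, h, Matrix.one_mul])

theorem conjK_apply (g : GL (Fin 2) K) (A : Matrix (Fin 2) (Fin 2) K) :
    conjK (R := R) g A = (g : Matrix (Fin 2) (Fin 2) K) * A *
      ((g⁻¹ : GL (Fin 2) K) : Matrix (Fin 2) (Fin 2) K) := rfl

/-- A matrix with entries in `J` whose inverse has entries in `J⁻¹` represents an element of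
`PGL₂(R)`. -/
theorem representsPGL_of_entries {g : GL (Fin 2) K} {J : FractionalIdeal R⁰ K} (hJ : J ≠ 0)
    (h1 : ∀ i j, (g : Matrix (Fin 2) (Fin 2) K) i j ∈ J)
    (h2 : ∀ i j, ((g⁻¹ : GL (Fin 2) K) : Matrix (Fin 2) (Fin 2) K) i j ∈ J⁻¹) :
    RepresentsPGL R K g := by
  have hmap : (iota R K).range.map (conjK g : Matrix (Fin 2) (Fin 2) K ≃ₐ[R] _).toAlgHom
      = (iota R K).range := by
    apply le_antisymm
    · rintro _ ⟨A, hA, rfl⟩
      change A ∈ (iota R K).range at hA
      rw [mem_range_iota] at hA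
      rw [mem_range_iota]
      intro i j
      have := mul_entries (mul_entries h1 hA) h2 i j
      rwa [mul_one, mul_inv_cancel₀ hJ] at this
    · intro A hA
      rw [mem_range_iota] at hA
      refine ⟨((g⁻¹ : GL (Fin 2) K) : Matrix (Fin 2) (Fin 2) K) * A *
        (g : Matrix (Fin 2) (Fin 2) K), ?_, ?_⟩
      · change _ ∈ (iota R K).range
        rw [mem_range_iota]
        intro i j
        have := mul_entries (mul_entries h2 hA) h1 i j
        rwa [mul_one, inv_mul_cancel₀ hJ] at this
      · have h : (g : Matrix (Fin 2) (Fin 2) K) *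
            ((g⁻¹ : GL (Fin 2) K) : Matrix (Fin 2) (Fin 2) K) = 1 := by
          rw [← Units.val_mul, mul_inv_cancel]; rfl
        change (g : Matrix (Fin 2) (Fin 2) K) * (((g⁻¹ : GL (Fin 2) K) : Matrix (Fin 2) (Fin 2) K)
          * A * (g : Matrix (Fin 2) (Fin 2) K)) *
          ((g⁻¹ : GL (Fin 2) K) : Matrix (Fin 2) (Fin 2) K) = A
        rw [Matrix.mul_assoc, Matrix.mul_assoc, Matrix.mul_assoc, h, Matrix.mul_one,
          ← Matrix.mul_assoc, h, Matrix.one_mul]
  let e1 := AlgEquiv.ofInjective (iota R K) iota_injective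
  let e2 := (conjK g : Matrix (Fin 2) (Fin 2) K ≃ₐ[R] _).subalgebraMap (iota R K).range
  let e3 := Subalgebra.equivOfEq _ _ hmap
  refine ⟨((e1.trans e2).trans e3).trans e1.symm, fun A => ?_⟩
  have h3 : iota R K ((((e1.trans e2).trans e3).trans e1.symm) A)
      = ((e3 (e2 (e1 A)) : (iota R K).range) : Matrix (Fin 2) (Fin 2) K) := by
    have h4 : ∀ x : (iota R K).range, iota R K (e1.symm x) = x := by
      intro x
      have := e1.apply_symm_apply x
      exact congrArg Subtype.val this
    exact h4 _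
  exact h3

/-- The converse: if `g` represents an element of `PGL₂(R)` then, with `J` the fractional ideal
generated by its entries, `J² = (det g)` and `g` multiplies the ideal of every vector by `J`. -/
theorem exists_ideal_of_represents {g : GL (Fin 2) K} (hg : RepresentsPGL R K g) :
    ∃ J : FractionalIdeal R⁰ K, J ≠ 0 ∧
      J * J = spanSingleton R⁰ (g : Matrix (Fin 2) (Fin 2) K).det ∧
      ∀ v : Fin 2 → K, fid R ((g : Matrix (Fin 2) (Fin 2) K).mulVec v) = J * fid R v := by
  obtain ⟨φ, hφ⟩ := hg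
  set G : Matrix (Fin 2) (Fin 2) K := (g : Matrix (Fin 2) (Fin 2) K) with hG
  set G' : Matrix (Fin 2) (Fin 2) K := ((g⁻¹ : GL (Fin 2) K) : Matrix (Fin 2) (Fin 2) K) with hG'
  have hGG' : G * G' = 1 := by rw [hG, hG', ← Units.val_mul, mul_inv_cancel]; rfl
  have hG'G : G' * G = 1 := by rw [hG, hG', ← Units.val_mul, inv_mul_cancel]; rfl
  have hdet : G.det * G'.det = 1 := by rw [← Matrix.det_mul, hGG', Matrix.det_one]
  have hd0 : G.det ≠ 0 := left_ne_zero_of_mul_eq_one hdet
  -- products of entries are integral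
  have hprod : ∀ i j p k, G i j * G' p k ∈ (1 : FractionalIdeal R⁰ K) := by
    intro i j p k
    have h1 := hφ (Matrix.single j p 1)
    have h2 := congrFun (congrFun h1 i) k
    rw [mem_one_iff]
    refine ⟨φ (Matrix.single j p 1) i k, ?_⟩
    have h3 : (Matrix.single j p (1 : R)).map (algebraMap R K) = Matrix.single j p (1 : K) := by
      ext a b
      simp [Matrix.single_apply, apply_ite]
    rw [h3] at h2
    change algebraMap R K (φ (Matrix.single j p 1) i k) = _ at h2
    rw [h2, Matrix.mul_assoc, Matrix.mul_apply]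
    rw [Finset.sum_eq_single j]
    · rw [Matrix.mul_apply, Finset.sum_eq_single p]
      · simp
      · intro b _ hb
        simp [Matrix.single_apply, hb.symm]
      · simp
    · intro b _ hb
      rw [Matrix.mul_apply, Finset.sum_eq_zero, mul_zero]
      intro c _
      simp [Matrix.single_apply, hb.symm]
    · simp
  -- the inverse
  have hinv : G' = G.det⁻¹ • Matrix.of ![![G 1 1, -G 0 1], ![-G 1 0, G 0 0]] := by
    have h1 : G.adjugate = Matrix.of ![![G 1 1, -G 0 1], ![-G 1 0, G 0 0]] :=
      Matrix.adjugate_fin_two G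
    have h2 : G' * (G * G.adjugate) = G.adjugate := by
      rw [← Matrix.mul_assoc, hG'G, Matrix.one_mul]
    rw [Matrix.mul_adjugate, Matrix.mul_smul, Matrix.mul_one] at h2
    rw [← h1, ← h2, smul_smul, inv_mul_cancel₀ hd0, one_smul]
  let J : FractionalIdeal R⁰ K := fid R (fun i => G i 0) + fid R (fun i => G i 1)
  have hJmem : ∀ i j, G i j ∈ J := by
    intro i j
    fin_cases j
    · have : fid R (fun i => G i 0) ≤ J := le_self_add
      exact this (mem_fid (R := R) (fun i => G i 0) i)
    · have : fid R (fun i => G i 1) ≤ J := le_add_self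
      exact this (mem_fid (R := R) (fun i => G i 1) i)
  have hJle : ∀ {I : FractionalIdeal R⁰ K}, (∀ i j, G i j ∈ I) → J ≤ I := by
    intro I h
    exact sup_le (fid_le fun i => h i 0) (fid_le fun i => h i 1)
  have hJ0 : J ≠ 0 := by
    intro h
    apply hd0
    have h0 : ∀ i j, G i j = 0 := fun i j => by
      have := hJmem i j
      rw [h] at this
      exact (mem_zero_iff R⁰).1 this
    rw [Matrix.det_fin_two, h0 0 0, h0 0 1]
    ring
  have hdS : spanSingleton R⁰ G.det ≠ 0 := by
    rwa [Ne, spanSingleton_eq_zero_iff]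
  -- `G'` has entries in `J⁻¹`
  have hG'mem : ∀ p k, G' p k ∈ J⁻¹ := by
    intro p k
    rw [mem_inv_iff hJ0]
    intro y hy
    have : J ≤ spanSingleton R⁰ (G' p k)⁻¹ ∨ G' p k = 0 := by
      by_cases h0 : G' p k = 0
      · exact Or.inr h0
      · left
        apply hJle
        intro i j
        rw [mem_spanSingleton]
        obtain ⟨r, hr⟩ := (mem_one_iff R⁰).1 (hprod i j p k)
        refine ⟨r, ?_⟩
        rw [Algebra.smul_def, hr]
        field_simp
    rcases this with h | h
    · have h2 := h hy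
      rw [mem_spanSingleton] at h2
      obtain ⟨r, rfl⟩ := h2
      by_cases h0 : G' p k = 0
      · rw [h0, zero_mul]; exact Submodule.zero_mem _
      · rw [mem_one_iff]
        refine ⟨r, ?_⟩
        rw [Algebra.smul_def]
        field_simp
    · rw [h, zero_mul]; exact Submodule.zero_mem _
  -- entries of `det⁻¹ G` are in `J⁻¹`
  have hJd : spanSingleton R⁰ G.det⁻¹ * J ≤ J⁻¹ := by
    have h1 : J ≤ spanSingleton R⁰ G.det * J⁻¹ := by
      apply hJle
      intro i j
      rw [mem_singleton_mul]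
      have e11 := hG'mem 0 0
      have e12 := hG'mem 0 1
      have e21 := hG'mem 1 0
      have e22 := hG'mem 1 1
      rw [hinv] at e11 e12 e21 e22
      simp only [Matrix.smul_apply, Matrix.of_apply, Matrix.cons_val', Matrix.cons_val_zero,
        Matrix.cons_val_one, Matrix.cons_val_fin_one, smul_eq_mul] at e11 e12 e21 e22
      fin_cases i <;> fin_cases j
      · exact ⟨_, e22, by simp only [Fin.zero_eta]; field_simp⟩
      · exact ⟨_, Submodule.neg_mem _ e12, by simp only [Fin.zero_eta, Fin.mk_one]; field_simp⟩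
      · exact ⟨_, Submodule.neg_mem _ e21, by simp only [Fin.zero_eta, Fin.mk_one]; field_simp⟩
      · exact ⟨_, e11, by simp only [Fin.mk_one]; field_simp⟩
    calc spanSingleton R⁰ G.det⁻¹ * J
        ≤ spanSingleton R⁰ G.det⁻¹ * (spanSingleton R⁰ G.det * J⁻¹) := by gcongr
      _ = J⁻¹ := by
        rw [← mul_assoc, spanSingleton_mul_spanSingleton, inv_mul_cancel₀ hd0,
          spanSingleton_one, one_mul]
  -- `G'` entries are in `det⁻¹ J`
  have hG'mem2 : ∀ p k, G' p k ∈ spanSingleton R⁰ G.det⁻¹ * J := by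
    intro p k
    rw [mem_singleton_mul, hinv]
    fin_cases p <;> fin_cases k
    · exact ⟨_, hJmem 1 1, rfl⟩
    · exact ⟨_, Submodule.neg_mem _ (hJmem 0 1), rfl⟩
    · exact ⟨_, Submodule.neg_mem _ (hJmem 1 0), rfl⟩
    · exact ⟨_, hJmem 0 0, rfl⟩
  have hone : J * (spanSingleton R⁰ G.det⁻¹ * J) = 1 := by
    apply le_antisymm
    · calc J * (spanSingleton R⁰ G.det⁻¹ * J) ≤ J * J⁻¹ := by gcongr
        _ = 1 := mul_inv_cancel₀ hJ0
    · have h1 : (1 : K) ∈ J * (spanSingleton R⁰ G.det⁻¹ * J) := by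
        have := mul_entries hJmem hG'mem2 0 0
        rwa [hGG', Matrix.one_apply_eq] at this
      rw [← spanSingleton_one (S := R⁰) (P := K)]
      exact spanSingleton_le_iff_mem.2 h1
  refine ⟨J, hJ0, ?_, ?_⟩
  · have h1 : spanSingleton R⁰ G.det⁻¹ * (J * J) = 1 := by
      rw [← hone]; ring
    calc J * J = spanSingleton R⁰ G.det * (spanSingleton R⁰ G.det⁻¹ * (J * J)) := by
          rw [← mul_assoc, spanSingleton_mul_spanSingleton, mul_inv_cancel₀ hd0,
            spanSingleton_one, one_mul]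
      _ = spanSingleton R⁰ G.det := by rw [h1, mul_one]
  · intro v
    apply le_antisymm (fid_mulVec_le hJmem v)
    have h1 := fid_mulVec_le hG'mem2 (G.mulVec v)
    rw [Matrix.mulVec_mulVec, hG'G, Matrix.one_mulVec] at h1
    calc J * fid R v ≤ J * (spanSingleton R⁰ G.det⁻¹ * J * fid R (G.mulVec v)) := by gcongr
      _ = fid R (G.mulVec v) := by rw [← mul_assoc, hone, one_mul]

end Pool.Agent.Helper48_PGL
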